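import Pool.Agent.Lib_helper28.TE28.Statement
import Pool.Agent.Lib_helper28.TE28.End

/-!
# The Tate conjecture in codimension one from the Galois action modulo one prime

Let `K` be a number field that contains a primitive root of unity `ζ` of order `p ^ a` (`a = 0` is
allowed) and let `S` be a finite family of strata: affine spaces with a polynomial `G_i` over the
integers of `K` and an integer coefficient `c_i`. The family has two functions on the finite fields
`F` over a residue field of `K`: the character sum `T(F)` (the sum of `c_i` times the sum over all
points of the `p ^ a`-th power residue symbols of the values of `G_i`) and the number of points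
`N(F)` (the sum of `c_i` times the number of points at which `G_i` does not vanish). For example
`T(F)` is the trace of Frobenius on the part of the second cohomology of the surface
`z ^ (p ^ a) = f(x, y)` that belongs to a character of order `p ^ a`, and `N(F)` modulo `p` is the
trace of Frobenius on the first cohomology with coefficients `ZMod p` of the curve `f = 0` (if the
curve has one place at infinity and unibranch singularities).

Let `ρ` be a continuous representation of the absolute Galois group of `K` over `ℂ_[p]`, of
dimension `d`, with the traces `T(F)`, and let `r` be a representation with open kernel over an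
algebraically closed field of characteristic `p`, of the same dimension, with the traces `N(F)`.
Assume one of the following.

* The image of `r` contains a conjugate of a symplectic group `Sp_d(F)`, `d ≥ 4`, or of the
  orthogonal group of a nondegenerate quadratic form over the field with two elements, `d ≥ 6`, and
  either `p > d` or the image of `ρ(j)` is infinite.
* The representation `r` is irreducible and the determinant of `ρ(j)` has infinite order.

Then at every prime `ℓ` every `ℓ`-adic representation `V` with the traces `T(F)` has no Tate
classes: no open subgroup of the Galois group acts trivially on a nonzero subquotient of `V(j)`.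
-/

set_option autoImplicit false

namespace Pool.Agent.Results.MP_97f789_ag.ResidualMonodromy

open NumberField Pool.Agent.TT Pool.Agent.TB Pool.Agent.TF Pool.Agent.RF

theorem result {K : Type} [Field K] [NumberField K] [Algebra K Qbar] {p a : ℕ} [Fact p.Prime]
    {ζ : 𝓞 K} (hζ : IsPrimitiveRoot ζ (p ^ a)) {s : ℕ} (S : Fin s → Stratum K)
    (ip : K →+* ℂ_[p]) {d : ℕ} (ρ : (Qbar ≃ₐ[K] Qbar) →* Matrix (Fin d) (Fin d) ℂ_[p])
    (hρ : Continuous ρ) (hT : SumTraces (fun σ => (ρ σ).trace) ip (p ^ a) ζ S)
    {k : Type} [Field k] [CharP k p] [IsAlgClosed k]
    (r : (Qbar ≃ₐ[K] Qbar) →* Matrix (Fin d) (Fin d) k)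
    (hr : IsOpen (r.ker : Set (Qbar ≃ₐ[K] Qbar))) (hrT : CardTraces (fun σ => (r σ).trace) S)
    {j : ℕ} (hbig : BigImage ρ r j) {ℓ : ℕ} [Fact ℓ.Prime] (il : K →+* PadicAlgCl ℓ) {V : Type}
    [AddCommGroup V] [Module (PadicAlgCl ℓ) V] [Module.Finite (PadicAlgCl ℓ) V]
    (π : Representation (PadicAlgCl ℓ) (Qbar ≃ₐ[K] Qbar) V)
    (hπ : SumTraces (fun σ => LinearMap.trace (PadicAlgCl ℓ) V (π σ)) il (p ^ a) ζ S) :
    NoTateClasses π j := by
  intro H hH W₁ W₂ hW hTate
  refine final hζ S ip ρ hρ hT r hr hrT (j := j) ?_ il π hπ H hH W₁ W₂ hW hTate
  rcases hbig with h | ⟨h1, h2⟩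
  · exact Or.inl h
  · refine Or.inr ⟨h1, fun e he => ?_⟩
    obtain ⟨σ, hσ⟩ := h2 e he
    refine ⟨σ, ?_⟩
    rw [Matrix.det_smul, Fintype.card_fin, ← pow_mul] at hσ
    exact hσ

end Pool.Agent.Results.MP_97f789_ag.ResidualMonodromy
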